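import Pool.Agent.W262.SH.StmC

/-!
# SC-PHI: the Tate-Shafarevich group of `A` and the quadratic twists of `E`
-/

set_option autoImplicit false

namespace Pool.Agent.W381.SH

open Pool.Agent.W262.SH
open scoped Matrix.Module Classical

section idem

variable {G : Type} [CommGroup G] [Fintype G] {R : Type} [Ring R]

/-- the (multiple of the) idempotent of the sign character `χ` -/
def eS (χ : G →* ℤˣ) (ρ : G →* R) : R := ∑ h, ((χ h : ℤˣ) : ℤ) • ρ h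

theorem usq (u : ℤˣ) : ((u : ℤˣ) : ℤ) * ((u : ℤˣ) : ℤ) = 1 := by
  rcases Int.units_eq_one_or u with rfl | rfl <;> norm_num

theorem rho_mul_eS (χ : G →* ℤˣ) (ρ : G →* R) (k : G) :
    ρ k * eS χ ρ = ((χ k : ℤˣ) : ℤ) • eS χ ρ := by
  unfold eS
  rw [Finset.mul_sum, Finset.smul_sum]
  refine Fintype.sum_equiv (Equiv.mulLeft k) _ _ fun h => ?_
  rw [Equiv.coe_mulLeft, map_mul, map_mul, mul_smul_comm, smul_smul, Units.val_mul, ← mul_assoc,
    usq, one_mul]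

theorem eS_mul_rho (χ : G →* ℤˣ) (ρ : G →* R) (k : G) :
    eS χ ρ * ρ k = ((χ k : ℤˣ) : ℤ) • eS χ ρ := by
  unfold eS
  rw [Finset.sum_mul, Finset.smul_sum]
  refine Fintype.sum_equiv (Equiv.mulRight k) _ _ fun h => ?_
  rw [Equiv.coe_mulRight, map_mul, map_mul, smul_mul_assoc, smul_smul, Units.val_mul,
    mul_comm ((χ h : ℤˣ) : ℤ), ← mul_assoc, usq, one_mul]

theorem eS_mul_eS (χ : G →* ℤˣ) (ρ : G →* R) :
    eS χ ρ * eS χ ρ = (Fintype.card G : ℤ) • eS χ ρ := by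
  conv_lhs => rw [show eS χ ρ * eS χ ρ = (∑ h, ((χ h : ℤˣ) : ℤ) • ρ h) * eS χ ρ from rfl]
  rw [Finset.sum_mul]
  have h1 : ∀ h : G, ((χ h : ℤˣ) : ℤ) • ρ h * eS χ ρ = eS χ ρ := by
    intro h
    rw [smul_mul_assoc, rho_mul_eS, smul_smul, usq, one_smul]
  simp only [h1]
  rw [Finset.sum_const, Finset.card_univ, ← natCast_zsmul]

end idem

section signs

/-- the character `χ_S` -/
def chS {n : ℕ} (S : Finset (Fin n)) : (Fin n → ℤˣ) →* ℤˣ where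
  toFun ε := ∏ i ∈ S, ε i
  map_one' := by simp
  map_mul' a b := by simp [Finset.prod_mul_distrib]

theorem sum_chS {n : ℕ} (ε : Fin n → ℤˣ) :
    ∑ S : Finset (Fin n), ((chS S ε : ℤˣ) : ℤ) = if ε = 1 then (2 : ℤ) ^ n else 0 := by
  have h1 : ∑ S : Finset (Fin n), ((chS S ε : ℤˣ) : ℤ) = ∏ i : Fin n, (1 + ((ε i : ℤˣ) : ℤ)) := by
    rw [Finset.prod_one_add, Finset.powerset_univ]
    refine Finset.sum_congr rfl fun S _ => ?_
    unfold chS
    simp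
  rw [h1]
  split_ifs with h
  · subst h
    simp
  · obtain ⟨i, hi⟩ := Function.ne_iff.mp h
    refine Finset.prod_eq_zero (Finset.mem_univ i) ?_
    rcases Int.units_eq_one_or (ε i) with h2 | h2
    · exact absurd h2 hi
    · rw [h2]; norm_num

theorem sum_eS {n : ℕ} {R : Type} [Ring R] (ρ : (Fin n → ℤˣ) →* R) :
    ∑ S : Finset (Fin n), eS (chS S) ρ = ((2 : ℤ) ^ n) • (1 : R) := by
  unfold eS
  rw [Finset.sum_comm]
  have h1 : ∀ ε : Fin n → ℤˣ, ∑ S : Finset (Fin n), ((chS S ε : ℤˣ) : ℤ) • ρ ε =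
      (if ε = 1 then (2 : ℤ) ^ n else 0) • ρ ε := by
    intro ε
    rw [← Finset.sum_smul, sum_chS]
  simp only [h1]
  rw [Finset.sum_eq_single (1 : Fin n → ℤˣ)]
  · rw [if_pos rfl, map_one]
  · intro ε _ hε
    rw [if_neg hε, zero_smul]
  · intro h
    exact absurd (Finset.mem_univ _) h

variable {n : ℕ} {L : Type} [Field L] [Algebra ℚ L]

theorem chi_spec (D : Fin n → ℤ) (hD : ∀ i, D i ≠ 0) (s : Fin n → L)
    (hs : ∀ i, s i ^ 2 = (D i : L)) (τ : L →ₐ[ℚ] L) (i : Fin n) :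
    τ (s i) = (((chi D τ i : ℤˣ) : ℤ) : L) * s i := by
  have hc : CharZero L := algebraRat.charZero L
  have h1 : τ (s i) ^ 2 = s i ^ 2 := by
    rw [← map_pow, hs, map_intCast]
  have hs0 : s i ≠ 0 := by
    intro h
    have := hs i
    rw [h] at this
    have h2 : (D i : L) = 0 := by rw [← this]; norm_num
    exact hD i (by exact_mod_cast h2)
  rcases sq_eq_sq_iff_eq_or_eq_neg.mp h1 with h2 | h2
  · have h3 : chi D τ i = 1 := by
      unfold chi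
      rw [if_pos]
      intro r hr
      rcases sq_eq_sq_iff_eq_or_eq_neg.mp (hr.trans (hs i).symm) with rfl | rfl
      · exact h2
      · rw [map_neg, h2]
    rw [h3, h2]
    norm_num
  · have h3 : chi D τ i = -1 := by
      unfold chi
      rw [if_neg]
      intro h
      have h4 := h (s i) (hs i)
      rw [h2] at h4
      have h5 : (2 : L) * s i = 0 := by
        calc (2 : L) * s i = s i - (- s i) := by ring
          _ = 0 := by rw [h4]; ring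
      rcases mul_eq_zero.mp h5 with h6 | h6
      · exact two_ne_zero h6
      · exact hs0 h6
    rw [h3, h2]
    norm_num

theorem chS_spec (D : Fin n → ℤ) (hD : ∀ i, D i ≠ 0) (s : Fin n → L)
    (hs : ∀ i, s i ^ 2 = (D i : L)) (τ : L →ₐ[ℚ] L) (S : Finset (Fin n)) :
    τ (∏ i ∈ S, s i) = (((chS S (chi D τ) : ℤˣ) : ℤ) : L) * ∏ i ∈ S, s i := by
  rw [map_prod]
  simp only [chi_spec D hD s hs]
  rw [Finset.prod_mul_distrib]
  congr 1
  unfold chS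
  simp

omit [Algebra ℚ L] in
theorem sqS (D : Fin n → ℤ) (s : Fin n → L) (hs : ∀ i, s i ^ 2 = (D i : L))
    (S : Finset (Fin n)) : (∏ i ∈ S, s i) ^ 2 = ((∏ i ∈ S, D i : ℤ) : L) := by
  rw [← Finset.prod_pow]
  push_cast
  exact Finset.prod_congr rfl fun i _ => hs i

end signs

section vec

variable {g : ℕ} (W : WeierstrassCurve ℚ)

/-- the componentwise action -/
noncomputable def actv {F L : Type} [Field F] [Field L] [Algebra ℚ F] [Algebra ℚ L]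
    (φ : F →ₐ[ℚ] L) : (Fin g → Pt W F) →+ (Fin g → Pt W L) := (act W φ).compLeft (Fin g)

theorem actv_apply {F L : Type} [Field F] [Field L] [Algebra ℚ F] [Algebra ℚ L]
    (φ : F →ₐ[ℚ] L) (P : Fin g → Pt W F) (i : Fin g) : actv W φ P i = act W φ (P i) := rfl

theorem actv_smul {F L : Type} [Field F] [Field L] [Algebra ℚ F] [Algebra ℚ L]
    (φ : F →ₐ[ℚ] L) (N : Matrix (Fin g) (Fin g) ℤ) (P : Fin g → Pt W F) :
    actv W φ (N • P) = N • actv W φ P := by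
  funext i
  rw [actv_apply, Matrix.Module.smul_apply, Matrix.Module.smul_apply, map_sum]
  simp only [map_zsmul, actv_apply]

theorem tact_eq {n : ℕ} (D : Fin n → ℤ) (ρ : (Fin n → ℤˣ) →* (Matrix (Fin g) (Fin g) ℤ)ˣ)
    {L : Type} [Field L] [Algebra ℚ L] (τ : L →ₐ[ℚ] L) (P : Fin g → Pt W L) :
    tact W D ρ τ P = ((ρ (chi D τ) : (Matrix (Fin g) (Fin g) ℤ)ˣ) : Matrix (Fin g) (Fin g) ℤ) •
      actv W τ P := rfl

end vec

section main

/-- the property of `θ` in `TWI` -/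
def IsTw (A B d : ℤ)
    (θ : ∀ (L : Type) [Field L] [Algebra ℚ L], L → Pt (E A B) L → Pt (E (d * A) (d * B)) L) :
    Prop :=
  ∀ (L : Type) [Field L] [Algebra ℚ L] (s : L), s ^ 2 = (d : L) →
    (∀ P Q, θ L s (P + Q) = θ L s P + θ L s Q) ∧ Function.Bijective (θ L s) ∧
    (∀ P, θ L (-s) P = - θ L s P) ∧
    ∀ (L' : Type) [Field L'] [Algebra ℚ L'] (φ : L →ₐ[ℚ] L') (P : Pt (E A B) L),
      act (E (d * A) (d * B)) φ (θ L s P) = θ L' (φ s) (act (E A B) φ P)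

variable {n g : ℕ} {D : Fin n → ℤ} (hD : ∀ i, D i ≠ 0) {A B : ℤ}
  (ρ : (Fin n → ℤˣ) →* (Matrix (Fin g) (Fin g) ℤ)ˣ)

/-- the matrices `e_S` -/
def eM (S : Finset (Fin n)) : Matrix (Fin g) (Fin g) ℤ :=
  eS (chS S) ((Units.coeHom (Matrix (Fin g) (Fin g) ℤ)).comp ρ)

theorem eM_tact (S : Finset (Fin n)) (W : WeierstrassCurve ℚ) {L : Type} [Field L] [Algebra ℚ L]
    (τ : L →ₐ[ℚ] L) (P : Fin g → Pt W L) :
    eM ρ S • tact W D ρ τ P = ((chS S (chi D τ) : ℤˣ) : ℤ) • actv W τ (eM ρ S • P) := by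
  have h := eS_mul_rho (chS S) ((Units.coeHom (Matrix (Fin g) (Fin g) ℤ)).comp ρ) (chi D τ)
  have h' : eM ρ S * ((ρ (chi D τ) : (Matrix (Fin g) (Fin g) ℤ)ˣ) : Matrix (Fin g) (Fin g) ℤ) =
      ((chS S (chi D τ) : ℤˣ) : ℤ) • eM ρ S := h
  rw [tact_eq, ← mul_smul, h', actv_smul, smul_assoc]

theorem tact_eM (S : Finset (Fin n)) (W : WeierstrassCurve ℚ) {L : Type} [Field L] [Algebra ℚ L]
    (τ : L →ₐ[ℚ] L) (P : Fin g → Pt W L) :
    tact W D ρ τ (eM ρ S • P) = ((chS S (chi D τ) : ℤˣ) : ℤ) • (eM ρ S • actv W τ P) := by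
  have h := rho_mul_eS (chS S) ((Units.coeHom (Matrix (Fin g) (Fin g) ℤ)).comp ρ) (chi D τ)
  have h' : ((ρ (chi D τ) : (Matrix (Fin g) (Fin g) ℤ)ˣ) : Matrix (Fin g) (Fin g) ℤ) * eM ρ S =
      ((chS S (chi D τ) : ℤˣ) : ℤ) • eM ρ S := h
  rw [tact_eq, actv_smul, ← mul_smul, h', smul_assoc]

theorem eM_sq (S : Finset (Fin n)) : eM ρ S * eM ρ S = ((2 : ℤ) ^ n) • eM ρ S := by
  have h := eS_mul_eS (chS S) ((Units.coeHom (Matrix (Fin g) (Fin g) ℤ)).comp ρ)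
  have h2 : (Fintype.card (Fin n → ℤˣ) : ℤ) = (2 : ℤ) ^ n := by
    rw [Fintype.card_fun, Fintype.card_fin]
    push_cast
    rfl
  rw [h2] at h
  exact h

theorem sum_eM : ∑ S : Finset (Fin n), eM ρ S = ((2 : ℤ) ^ n) • (1 : Matrix (Fin g) (Fin g) ℤ) :=
  sum_eS ((Units.coeHom (Matrix (Fin g) (Fin g) ℤ)).comp ρ)

include hD in
/-- the twisted action -/
theorem act_tw {S : Finset (Fin n)}
    {θ : ∀ (L : Type) [Field L] [Algebra ℚ L], L → Pt (E A B) L →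
      Pt (E ((∏ j ∈ S, D j) * A) ((∏ j ∈ S, D j) * B)) L}
    (hθ : IsTw A B (∏ j ∈ S, D j) θ) {L : Type} [Field L] [Algebra ℚ L] (s : Fin n → L)
    (hs : ∀ i, s i ^ 2 = (D i : L)) (τ : L →ₐ[ℚ] L) (P : Pt (E A B) L) :
    act (E ((∏ j ∈ S, D j) * A) ((∏ j ∈ S, D j) * B)) τ (θ L (∏ i ∈ S, s i) P) =
      θ L (∏ i ∈ S, s i) (((chS S (chi D τ) : ℤˣ) : ℤ) • act (E A B) τ P) := by
  obtain ⟨h1, h2, h3, h4⟩ := hθ L (∏ i ∈ S, s i) (sqS D s hs S)
  rw [h4 L τ P, chS_spec D hD s hs τ S]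
  have hadd : ∀ Q, θ L (∏ i ∈ S, s i) (-Q) = - θ L (∏ i ∈ S, s i) Q := by
    intro Q
    have h0 : θ L (∏ i ∈ S, s i) 0 = 0 := by
      have := h1 0 0
      rw [add_zero] at this
      exact left_eq_add.mp this
    have h5 := h1 (-Q) Q
    rw [neg_add_cancel, h0] at h5
    exact eq_neg_of_add_eq_zero_left h5.symm
  rcases Int.units_eq_one_or (chS S (chi D τ)) with h | h
  · rw [h]
    simp only [Units.val_one, Int.cast_one, one_mul, one_smul]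
  · rw [h]
    simp only [Units.val_neg, Units.val_one, Int.cast_neg, Int.cast_one, neg_mul, one_mul,
      neg_smul, one_smul]
    rw [h3, hadd]

/-- the additive map given by `θ` -/
noncomputable def thH {d : ℤ}
    {θ : ∀ (L : Type) [Field L] [Algebra ℚ L], L → Pt (E A B) L → Pt (E (d * A) (d * B)) L}
    (hθ : IsTw A B d θ) {L : Type} [Field L] [Algebra ℚ L] (s : L) (hs : s ^ 2 = (d : L)) :
    Pt (E A B) L →+ Pt (E (d * A) (d * B)) L :=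
  AddMonoidHom.mk' (θ L s) (hθ L s hs).1

/-- the map on the functions -/
noncomputable def TT {S : Finset (Fin n)}
    {θ : ∀ (L : Type) [Field L] [Algebra ℚ L], L → Pt (E A B) L →
      Pt (E ((∏ j ∈ S, D j) * A) ((∏ j ∈ S, D j) * B)) L}
    (hθ : IsTw A B (∏ j ∈ S, D j) θ) {L : Type} [Field L] [Algebra ℚ L] (s : Fin n → L)
    (hs : ∀ i, s i ^ 2 = (D i : L)) (i : Fin g) :
    (Fin g → Pt (E A B) L) →+ Pt (E ((∏ j ∈ S, D j) * A) ((∏ j ∈ S, D j) * B)) L :=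
  (thH hθ (∏ i ∈ S, s i) (sqS D s hs S)).comp
    { toFun := fun P => (eM ρ S • P) i
      map_zero' := by rw [smul_zero]; rfl
      map_add' := fun P Q => by rw [smul_add]; rfl }

theorem TT_apply {S : Finset (Fin n)}
    {θ : ∀ (L : Type) [Field L] [Algebra ℚ L], L → Pt (E A B) L →
      Pt (E ((∏ j ∈ S, D j) * A) ((∏ j ∈ S, D j) * B)) L}
    (hθ : IsTw A B (∏ j ∈ S, D j) θ) {L : Type} [Field L] [Algebra ℚ L] (s : Fin n → L)
    (hs : ∀ i, s i ^ 2 = (D i : L)) (i : Fin g) (P : Fin g → Pt (E A B) L) :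
    TT ρ hθ s hs i P = θ L (∏ i ∈ S, s i) ((eM ρ S • P) i) := rfl

include hD in
theorem TT_tact {S : Finset (Fin n)}
    {θ : ∀ (L : Type) [Field L] [Algebra ℚ L], L → Pt (E A B) L →
      Pt (E ((∏ j ∈ S, D j) * A) ((∏ j ∈ S, D j) * B)) L}
    (hθ : IsTw A B (∏ j ∈ S, D j) θ) {L : Type} [Field L] [Algebra ℚ L] (s : Fin n → L)
    (hs : ∀ i, s i ^ 2 = (D i : L)) (i : Fin g) (τ : L →ₐ[ℚ] L) (P : Fin g → Pt (E A B) L) :
    TT ρ hθ s hs i (tact (E A B) D ρ τ P) =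
      act (E ((∏ j ∈ S, D j) * A) ((∏ j ∈ S, D j) * B)) τ (TT ρ hθ s hs i P) := by
  rw [TT_apply, TT_apply, act_tw hD hθ s hs, eM_tact]
  rfl

theorem TT_nat {S : Finset (Fin n)}
    {θ : ∀ (L : Type) [Field L] [Algebra ℚ L], L → Pt (E A B) L →
      Pt (E ((∏ j ∈ S, D j) * A) ((∏ j ∈ S, D j) * B)) L}
    (hθ : IsTw A B (∏ j ∈ S, D j) θ) {L L' : Type} [Field L] [Algebra ℚ L] [Field L']
    [Algebra ℚ L'] (s : Fin n → L) (hs : ∀ i, s i ^ 2 = (D i : L)) (ι : L →ₐ[ℚ] L')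
    (hs' : ∀ i, (ι (s i)) ^ 2 = (D i : L')) (i : Fin g) (P : Fin g → Pt (E A B) L) :
    act (E ((∏ j ∈ S, D j) * A) ((∏ j ∈ S, D j) * B)) ι (TT ρ hθ s hs i P) =
      TT ρ hθ (fun i => ι (s i)) hs' i (actv (E A B) ι P) := by
  rw [TT_apply, TT_apply, (hθ L _ (sqS D s hs S)).2.2.2 L' ι, ← actv_smul, map_prod]
  rfl

include hD in
/-- local triviality -/
theorem TT_loc {S : Finset (Fin n)}
    {θ : ∀ (L : Type) [Field L] [Algebra ℚ L], L → Pt (E A B) L →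
      Pt (E ((∏ j ∈ S, D j) * A) ((∏ j ∈ S, D j) * B)) L}
    (hθ : IsTw A B (∏ j ∈ S, D j) θ) (s : Fin n → QB) (hs : ∀ i, s i ^ 2 = (D i : QB))
    (i : Fin g) (K : Type) [Field K] [Algebra ℚ K] {f : (QB ≃ₐ[ℚ] QB) → Fin g → Pt (E A B) QB}
    (hf : LocTrivA (E A B) D ρ K f) :
    LocTriv (E ((∏ j ∈ S, D j) * A) ((∏ j ∈ S, D j) * B)) K
      (fun σ => TT ρ hθ s hs i (f σ)) := by
  intro ι
  obtain ⟨P, hP⟩ := hf ι
  have hs' : ∀ i, (ι (s i)) ^ 2 = (D i : AlgebraicClosure K) := fun i => by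
    rw [← map_pow, hs, map_intCast]
  refine ⟨TT ρ hθ (fun i => ι (s i)) hs' i P, fun τ σ h => ?_⟩
  rw [TT_nat ρ hθ s hs ι hs']
  have h1 : actv (E A B) ι (f σ) =
      tact (E A B) D ρ (τ.toAlgHom.restrictScalars ℚ) P - P := hP τ σ h
  rw [h1, map_sub, TT_tact hD]

/-- the homomorphism on the cocycles -/
noncomputable def psi {S : Finset (Fin n)}
    {θ : ∀ (L : Type) [Field L] [Algebra ℚ L], L → Pt (E A B) L →
      Pt (E ((∏ j ∈ S, D j) * A) ((∏ j ∈ S, D j) * B)) L}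
    (hθ : IsTw A B (∏ j ∈ S, D j) θ) (s : Fin n → QB) (hs : ∀ i, s i ^ 2 = (D i : QB))
    (i : Fin g) : shaCocA (E A B) D ρ →+
      shaCoc (E ((∏ j ∈ S, D j) * A) ((∏ j ∈ S, D j) * B)) where
  toFun F := ⟨fun σ => TT ρ hθ s hs i (F.1 σ), by
    refine ⟨⟨F.2.1.1.comp (TT ρ hθ s hs i), fun σ τ => ?_⟩, ?_, ?_⟩
    · beta_reduce
      rw [F.2.1.2 σ τ, map_add, TT_tact hD]
    · intro p _
      exact TT_loc hD ρ hθ s hs i ℚ_[p] (F.2.2.1 p)
    · exact TT_loc hD ρ hθ s hs i ℝ F.2.2.2⟩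
  map_zero' := by
    apply Subtype.ext
    funext σ
    exact map_zero (TT ρ hθ s hs i)
  map_add' F F' := by
    apply Subtype.ext
    funext σ
    exact map_add (TT ρ hθ s hs i) (F.1 σ) (F'.1 σ)

theorem psi_apply {S : Finset (Fin n)}
    {θ : ∀ (L : Type) [Field L] [Algebra ℚ L], L → Pt (E A B) L →
      Pt (E ((∏ j ∈ S, D j) * A) ((∏ j ∈ S, D j) * B)) L}
    (hθ : IsTw A B (∏ j ∈ S, D j) θ) (s : Fin n → QB) (hs : ∀ i, s i ^ 2 = (D i : QB))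
    (i : Fin g) (F : shaCocA (E A B) D ρ) (σ : QB ≃ₐ[ℚ] QB) :
    (psi hD ρ hθ s hs i F).1 σ = TT ρ hθ s hs i (F.1 σ) := rfl

include hD in
theorem psi_cob {S : Finset (Fin n)}
    {θ : ∀ (L : Type) [Field L] [Algebra ℚ L], L → Pt (E A B) L →
      Pt (E ((∏ j ∈ S, D j) * A) ((∏ j ∈ S, D j) * B)) L}
    (hθ : IsTw A B (∏ j ∈ S, D j) θ) (s : Fin n → QB) (hs : ∀ i, s i ^ 2 = (D i : QB))
    (i : Fin g) :
    (cobA (E A B) D ρ).addSubgroupOf (shaCocA (E A B) D ρ) ≤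
      ((cob (E ((∏ j ∈ S, D j) * A) ((∏ j ∈ S, D j) * B))).addSubgroupOf
        (shaCoc (E ((∏ j ∈ S, D j) * A) ((∏ j ∈ S, D j) * B)))).comap (psi hD ρ hθ s hs i) := by
  intro F hF
  rw [AddSubgroup.mem_addSubgroupOf] at hF
  rw [AddSubgroup.mem_comap, AddSubgroup.mem_addSubgroupOf]
  obtain ⟨P, hP⟩ := hF
  refine ⟨TT ρ hθ s hs i P, fun σ => ?_⟩
  rw [psi_apply, hP σ, map_sub, TT_tact hD]

/-- one component of the homomorphism -/
theorem one (hT : TWI) (hD : ∀ i, D i ≠ 0) (hA : A ≠ 0) (hB : B ≠ 0) (hAB : A ≠ B)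
    (s : Fin n → QB) (hs : ∀ i, s i ^ 2 = (D i : QB)) (S : Finset (Fin n)) (i : Fin g) :
    ∃ φ : ShaA (E A B) D ρ →+ Sha (E ((∏ j ∈ S, D j) * A) ((∏ j ∈ S, D j) * B)),
      ∀ F : shaCocA (E A B) D ρ, φ (QuotientAddGroup.mk F) = 0 →
        ∃ P : Pt (E A B) QB, ∀ σ : QB ≃ₐ[ℚ] QB, (eM ρ S • F.1 σ) i =
          ((chS S (chi D σ.toAlgHom) : ℤˣ) : ℤ) • act (E A B) σ.toAlgHom P - P := by
  have hd : (∏ j ∈ S, D j) ≠ 0 := Finset.prod_ne_zero_iff.mpr fun j _ => hD j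
  obtain ⟨θ, hθ'⟩ := hT A B (∏ j ∈ S, D j) hA hB hAB hd
  have hθ : IsTw A B (∏ j ∈ S, D j) θ := hθ'
  refine ⟨QuotientAddGroup.map _ _ (psi hD ρ hθ s hs i) (psi_cob hD ρ hθ s hs i), ?_⟩
  intro F hF
  rw [QuotientAddGroup.map_mk, QuotientAddGroup.eq_zero_iff, AddSubgroup.mem_addSubgroupOf] at hF
  obtain ⟨R, hR⟩ := hF
  obtain ⟨h1, h2, h3, h4⟩ := hθ QB (∏ i ∈ S, s i) (sqS D s hs S)
  obtain ⟨P, rfl⟩ := h2.2 R
  refine ⟨P, fun σ => h2.1 ?_⟩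
  have h5 := hR σ
  rw [psi_apply, TT_apply, act_tw hD hθ s hs] at h5
  rw [h5]
  exact (map_sub (thH hθ (∏ i ∈ S, s i) (sqS D s hs S)) _ _).symm

end main

theorem phia (hT : Pool.Agent.W262.SH.TWI) : Pool.Agent.W262.SH.PHIA := by
  intro n g D ρ A B hA hB hAB hD
  have hex : ∀ i : Fin n, ∃ r : QB, r ^ 2 = (D i : QB) := fun i =>
    IsAlgClosed.exists_pow_nat_eq _ (by norm_num)
  choose s hs using hex
  choose φ hφ using fun (x : Finset (Fin n) × Fin g) =>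
    one (A := A) (B := B) ρ hT hD hA hB hAB s hs x.1 x.2
  refine ⟨AddMonoidHom.pi φ, ?_⟩
  intro c hc
  obtain ⟨F, rfl⟩ := QuotientAddGroup.mk_surjective c
  have hc' : ∀ x : Finset (Fin n) × Fin g, φ x (QuotientAddGroup.mk F) = 0 := fun x =>
    congrFun hc x
  choose P hP using fun x => hφ x F (hc' x)
  -- the points `P_S`
  let PS : Finset (Fin n) → Fin g → Pt (E A B) QB := fun S i => P (S, i)
  have hPS : ∀ (S : Finset (Fin n)) (σ : QB ≃ₐ[ℚ] QB), eM ρ S • F.1 σ =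
      ((chS S (chi D σ.toAlgHom) : ℤˣ) : ℤ) • actv (E A B) σ.toAlgHom (PS S) - PS S := by
    intro S σ
    funext i
    rw [hP (S, i) σ]
    rfl
  have h1 : ∀ (S : Finset (Fin n)) (σ : QB ≃ₐ[ℚ] QB), ((2 : ℤ) ^ n) • (eM ρ S • F.1 σ) =
      tact (E A B) D ρ σ.toAlgHom (eM ρ S • PS S) - eM ρ S • PS S := by
    intro S σ
    have h2 : ((2 : ℤ) ^ n) • (eM ρ S • F.1 σ) = eM ρ S • (eM ρ S • F.1 σ) := by
      rw [← mul_smul, eM_sq, smul_assoc]
    rw [h2, hPS S σ, smul_sub, tact_eM, smul_comm]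
  have hsum : ∀ (σ : QB ≃ₐ[ℚ] QB) (t : Finset (Finset (Fin n))),
      tact (E A B) D ρ σ.toAlgHom (∑ S ∈ t, eM ρ S • PS S) =
        ∑ S ∈ t, tact (E A B) D ρ σ.toAlgHom (eM ρ S • PS S) := by
    intro σ t
    induction t using Finset.induction_on with
    | empty => rw [Finset.sum_empty, Finset.sum_empty, tact_zero]
    | insert S t hS ih => rw [Finset.sum_insert hS, Finset.sum_insert hS, tact_add, ih]
  have h3 : ∀ σ : QB ≃ₐ[ℚ] QB, (2 ^ (2 * n)) • F.1 σ =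
      tact (E A B) D ρ σ.toAlgHom (∑ S, eM ρ S • PS S) - ∑ S, eM ρ S • PS S := by
    intro σ
    rw [hsum, ← Finset.sum_sub_distrib, ← Finset.sum_congr rfl fun S _ => h1 S σ,
      ← Finset.smul_sum, ← Finset.sum_smul, sum_eM, smul_assoc, one_smul, smul_smul, ← pow_add,
      ← two_mul]
    rw [← natCast_zsmul]
    push_cast
    rfl
  have h4 : (2 ^ (2 * n)) • (QuotientAddGroup.mk F : ShaA (E A B) D ρ) =
      QuotientAddGroup.mk ((2 ^ (2 * n)) • F) := rfl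
  rw [h4, QuotientAddGroup.eq_zero_iff, AddSubgroup.mem_addSubgroupOf]
  exact ⟨_, h3⟩

end Pool.Agent.W381.SH
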